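import Mathlib

set_option autoImplicit false

namespace Pool.Agent.Results.MP_945a85_co.NonCircularLoci

/-- A simple closed locus: the image of an injective continuous map from the circle. -/
def IsSimpleClosedLocus {E : Type*} [TopologicalSpace E] (A : Set E) : Prop :=
  ∃ f : Circle → E, Continuous f ∧ Function.Injective f ∧ Set.range f = A

/-- `B = lam • A + v` for some real `lam ≠ 0` and some vector `v`. -/
def Homothetic {E : Type*} [AddCommGroup E] [Module ℝ E] (A B : Set E) : Prop :=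
  ∃ (lam : ℝ) (v : E), lam ≠ 0 ∧ B = {y | ∃ x ∈ A, y = lam • x + v}

/-- The graph `G_d`: the vertex set is `A ∪ B`; each point of `A` is joined to every point of `B` at
distance `d`, and each point of `B` is joined to every point of `A` at distance `d`. -/
def distGraph {E : Type*} [MetricSpace E] (A B : Set E) (d : ℝ) : SimpleGraph ↥(A ∪ B) where
  Adj p q := p ≠ q ∧ dist p.1 q.1 = d ∧ ((p.1 ∈ A ∧ q.1 ∈ B) ∨ (p.1 ∈ B ∧ q.1 ∈ A))
  symm := by
    refine ⟨fun p q h => ?_⟩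
    refine ⟨h.1.symm, by rw [dist_comm]; exact h.2.1, ?_⟩
    rcases h.2.2 with ⟨h1, h2⟩ | ⟨h1, h2⟩
    · exact Or.inr ⟨h2, h1⟩
    · exact Or.inl ⟨h2, h1⟩
  loopless := ⟨fun p h => h.1 rfl⟩

/-- A circle: the set of all points of some two-dimensional affine plane `P` at some fixed distance
`r > 0` from some point `c` of `P`. -/
def IsCircle {E : Type*} [NormedAddCommGroup E] [InnerProductSpace ℝ E] (A : Set E) : Prop :=
  ∃ (P : AffineSubspace ℝ E) (c : E) (r : ℝ),
    Module.finrank ℝ P.direction = 2 ∧ c ∈ P ∧ 0 < r ∧ A = {x | x ∈ P ∧ dist x c = r}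

section construction

variable {E : Type*} [NormedAddCommGroup E] [InnerProductSpace ℝ E]

/-- The first curve. -/
noncomputable def ca (e0 e1 : E) (z : Circle) : E :=
  ((z : ℂ).re + (z : ℂ).re * (z : ℂ).im / 4) • e0 + (z : ℂ).im • e1

/-- The second curve. -/
noncomputable def cb (e0 e1 w : E) (z : Circle) : E :=
  ((z : ℂ).re - (z : ℂ).re * (z : ℂ).im / 4) • e0 + (z : ℂ).im • e1 + w

/-- The hypotheses on the frame: `e0, e1` orthonormal, `w` orthogonal to both. -/
structure Frame (e0 e1 w : E) : Prop where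
  h00 : inner ℝ e0 e0 = 1
  h11 : inner ℝ e1 e1 = 1
  h01 : inner ℝ e0 e1 = 0
  h0w : inner ℝ e0 w = 0
  h1w : inner ℝ e1 w = 0

variable {e0 e1 w : E}

lemma circle_sq (z : Circle) : (z : ℂ).re ^ 2 + (z : ℂ).im ^ 2 = 1 := by
  have h := Circle.normSq_coe z
  rw [Complex.normSq_apply] at h
  nlinarith [h]

lemma norm_sq_comb (F : Frame e0 e1 w) (s t u : ℝ) :
    ‖s • e0 + t • e1 + u • w‖ ^ 2 = s ^ 2 + t ^ 2 + u ^ 2 * ‖w‖ ^ 2 := by
  have h10 : inner ℝ e1 e0 = 0 := by rw [real_inner_comm]; exact F.h01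
  have hw0 : inner ℝ w e0 = 0 := by rw [real_inner_comm]; exact F.h0w
  have hw1 : inner ℝ w e1 = 0 := by rw [real_inner_comm]; exact F.h1w
  rw [← real_inner_self_eq_norm_sq, ← real_inner_self_eq_norm_sq w]
  simp only [inner_add_left, inner_add_right, real_inner_smul_left, real_inner_smul_right,
    F.h00, F.h11, F.h01, F.h0w, F.h1w, h10, hw0, hw1]
  ring

lemma comb_eq_zero (F : Frame e0 e1 w) {s t u : ℝ} (h : s • e0 + t • e1 + u • w = 0) :
    s = 0 ∧ t = 0 ∧ u ^ 2 * ‖w‖ ^ 2 = 0 := by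
  have h1 := norm_sq_comb F s t u
  rw [h, norm_zero] at h1
  have : 0 ≤ u ^ 2 * ‖w‖ ^ 2 := by positivity
  refine ⟨?_, ?_, ?_⟩ <;> nlinarith [sq_nonneg s, sq_nonneg t]

lemma sub_eq_comb (z z' : Circle) :
    ca e0 e1 z - cb e0 e1 w z' =
      (((z : ℂ).re + (z : ℂ).re * (z : ℂ).im / 4) - ((z' : ℂ).re - (z' : ℂ).re * (z' : ℂ).im / 4)) • e0
      + ((z : ℂ).im - (z' : ℂ).im) • e1 + (-1 : ℝ) • w := by
  unfold ca cb
  module

/-- The point `i` of the circle. -/
noncomputable def iC : Circle := ⟨Complex.I, by simp [Submonoid.unitSphere]⟩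

lemma iC_coe : (iC : ℂ) = Complex.I := rfl

lemma iC_re (z : Circle) : ((iC * z : Circle) : ℂ).re = - (z : ℂ).im := by
  simp [iC_coe]

lemma iC_im (z : Circle) : ((iC * z : Circle) : ℂ).im = (z : ℂ).re := by
  simp [iC_coe]

/-- negation on the circle -/
noncomputable def ng (z : Circle) : Circle := iC * (iC * z)

lemma ng_re (z : Circle) : ((ng z : Circle) : ℂ).re = - (z : ℂ).re := by
  rw [ng, iC_re, iC_im]

lemma ng_im (z : Circle) : ((ng z : Circle) : ℂ).im = - (z : ℂ).im := by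
  rw [ng, iC_im, iC_re]

lemma circle_ext {z z' : Circle} (h1 : (z : ℂ).re = (z' : ℂ).re) (h2 : (z : ℂ).im = (z' : ℂ).im) :
    z = z' := by
  apply Circle.ext
  exact Complex.ext h1 h2

lemma ng_ng (z : Circle) : ng (ng z) = z := by
  apply circle_ext <;> simp [ng_re, ng_im]

lemma ng_ne (z : Circle) : ng z ≠ z := by
  intro h
  have h1 := congrArg (fun z : Circle => (z : ℂ).re) h
  have h2 := congrArg (fun z : Circle => (z : ℂ).im) h
  simp only [ng_re, ng_im] at h1 h2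
  have := circle_sq z
  nlinarith

lemma iC_ng (z : Circle) : iC * ng z = ng (iC * z) := by
  apply circle_ext <;> simp only [iC_re, iC_im, ng_re, ng_im]

lemma iC_iC (z : Circle) : iC * (iC * z) = ng z := rfl

lemma bounds (z : Circle) : |(z : ℂ).re| ≤ 1 ∧ |(z : ℂ).im| ≤ 1 := by
  have := circle_sq z
  constructor
  · rw [abs_le_one_iff_mul_self_le_one]; nlinarith [sq_nonneg (z : ℂ).im]
  · rw [abs_le_one_iff_mul_self_le_one]; nlinarith [sq_nonneg (z : ℂ).re]

/-- Orthogonality of `z` and `z'` means `z' = i z` or `z' = - i z`. -/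
lemma perp_cases_real {x y x' y' : ℝ} (h1 : x ^ 2 + y ^ 2 = 1) (h2 : x' ^ 2 + y' ^ 2 = 1)
    (h : x * x' + y * y' = 0) : (x' = - y ∧ y' = x) ∨ (x' = y ∧ y' = - x) := by
  have hT : (x * y' - x' * y) ^ 2 = 1 := by
    have : (x * y' - x' * y) ^ 2 = (x^2 + y^2) * (x'^2 + y'^2) - (x * x' + y * y')^2 := by ring
    rw [this, h, h1, h2]; norm_num
  have hx1 : x' = - (x * y' - x' * y) * y := by
    have : x' * (x^2 + y^2) = x * (x * x' + y * y') - (x * y' - x' * y) * y := by ring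
    rw [h1, h] at this; linarith
  have hy1 : y' = (x * y' - x' * y) * x := by
    have : y' * (x^2 + y^2) = y * (x * x' + y * y') + (x * y' - x' * y) * x := by ring
    rw [h1, h] at this; linarith
  have hcase : (x * y' - x' * y) = 1 ∨ (x * y' - x' * y) = -1 := by
    have : ((x * y' - x' * y) - 1) * ((x * y' - x' * y) + 1) = 0 := by
      have h5 : ((x * y' - x' * y) - 1) * ((x * y' - x' * y) + 1) = (x * y' - x' * y) ^ 2 - 1 := by
        ring
      rw [h5, hT]; norm_num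
    rcases mul_eq_zero.mp this with h | h
    · left; linarith
    · right; linarith
  rcases hcase with hc | hc
  · left
    rw [hc] at hx1 hy1
    constructor <;> linarith
  · right
    rw [hc] at hx1 hy1
    constructor <;> linarith

lemma real_key {x y x' y' : ℝ} (h1 : x ^ 2 + y ^ 2 = 1) (h2 : x' ^ 2 + y' ^ 2 = 1) :
    ((x + x * y / 4) - (x' - x' * y' / 4)) ^ 2 + (y - y') ^ 2 = 2 ↔ x * x' + y * y' = 0 := by
  have key : ((x + x * y / 4) - (x' - x' * y' / 4)) ^ 2 + (y - y') ^ 2 - 2 =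
      (x * x' + y * y') * (-2 + (x * y' + x' * y) * (x - x') / 2
        + (x * y' + x' * y) ^ 2 * (x * x' + y * y') / 16) := by
    have hS : x * y + x' * y' = (x * y' + x' * y) * (x * x' + y * y') := by
      have : (x * y' + x' * y) * (x * x' + y * y')
          = x' * y' * (x^2 + y^2) + x * y * (x'^2 + y'^2) := by
        ring
      rw [this, h1, h2]; ring
    have : ((x + x * y / 4) - (x' - x' * y' / 4)) ^ 2 + (y - y') ^ 2 - 2
      = (x^2+y^2) + (x'^2+y'^2) - 2 - 2 * (x * x' + y * y') + (x - x') * (x * y + x' * y') / 2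
        + (x * y + x' * y') ^ 2 / 16 := by ring
    rw [this, hS, h1, h2]; ring
  constructor
  · intro h
    have hk : (x * x' + y * y') * (-2 + (x * y' + x' * y) * (x - x') / 2
        + (x * y' + x' * y) ^ 2 * (x * x' + y * y') / 16) = 0 := by
      rw [← key]; linarith
    rcases mul_eq_zero.mp hk with h | h
    · exact h
    · exfalso
      have hD : (x * x' + y * y') ^ 2 ≤ 1 := by
        have : (x * x' + y * y')^2 = (x^2 + y^2) * (x'^2 + y'^2) - (x * y' - x' * y) ^ 2 := by ring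
        rw [this, h1, h2]; nlinarith [sq_nonneg (x * y' - x' * y)]
      have hT : (x * y' + x' * y) ^ 2 ≤ 1 := by
        have : (x * y' + x' * y)^2 = (x^2 + y^2) * (x'^2 + y'^2) - (x * x' - y * y') ^ 2 := by ring
        rw [this, h1, h2]; nlinarith [sq_nonneg (x * x' - y * y')]
      have hT' : |x * y' + x' * y| ≤ 1 := by
        rw [abs_le_one_iff_mul_self_le_one]; linarith
      have hxx : |x - x'| ≤ 2 := by
        rw [abs_le]
        constructor <;> nlinarith [sq_nonneg (x + 1), sq_nonneg (x - 1), sq_nonneg (x' + 1),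
          sq_nonneg (x' - 1), sq_nonneg y, sq_nonneg y']
      have hP : (x * y' + x' * y) * (x - x') ≤ 2 := by
        calc (x * y' + x' * y) * (x - x') ≤ |(x * y' + x' * y) * (x - x')| := le_abs_self _
          _ = |x * y' + x' * y| * |x - x'| := abs_mul _ _
          _ ≤ 1 * 2 := by
              apply mul_le_mul hT' hxx (abs_nonneg _) zero_le_one
          _ = 2 := by norm_num
      have hDa : x * x' + y * y' ≤ 1 := by nlinarith
      have hQ : (x * y' + x' * y) ^ 2 * (x * x' + y * y') ≤ 1 := by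
        calc (x * y' + x' * y) ^ 2 * (x * x' + y * y') ≤ (x * y' + x' * y) ^ 2 * 1 :=
              mul_le_mul_of_nonneg_left hDa (sq_nonneg _)
          _ ≤ 1 := by linarith
      linarith
  · intro hD
    rw [hD] at key
    linarith

/-- The distance criterion. -/
lemma dist_iff (F : Frame e0 e1 w) (z z' : Circle) :
    dist (ca e0 e1 z) (cb e0 e1 w z') = Real.sqrt (2 + ‖w‖ ^ 2) ↔
      (z' = iC * z ∨ z' = iC * ng z) := by
  have hd : dist (ca e0 e1 z) (cb e0 e1 w z') ^ 2 =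
      (((z : ℂ).re + (z : ℂ).re * (z : ℂ).im / 4) - ((z' : ℂ).re - (z' : ℂ).re * (z' : ℂ).im / 4)) ^ 2
      + ((z : ℂ).im - (z' : ℂ).im) ^ 2 + ‖w‖ ^ 2 := by
    rw [dist_eq_norm, sub_eq_comb, norm_sq_comb F]; ring
  have hiff : dist (ca e0 e1 z) (cb e0 e1 w z') = Real.sqrt (2 + ‖w‖ ^ 2) ↔
      dist (ca e0 e1 z) (cb e0 e1 w z') ^ 2 = 2 + ‖w‖ ^ 2 := by
    constructor
    · intro h; rw [h, Real.sq_sqrt]; positivity
    · intro h; rw [← h, Real.sqrt_sq dist_nonneg]
  rw [hiff, hd, add_left_inj, real_key (circle_sq z) (circle_sq z')]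
  constructor
  · intro h
    rcases perp_cases_real (circle_sq z) (circle_sq z') h with ⟨h1, h2⟩ | ⟨h1, h2⟩
    · left; apply circle_ext
      · rw [iC_re]; exact h1
      · rw [iC_im]; exact h2
    · right; apply circle_ext
      · rw [iC_re, ng_im]; linarith
      · rw [iC_im, ng_re]; exact h2
  · intro h
    rcases h with h | h
    · rw [h, iC_re, iC_im]; ring
    · rw [h, iC_re, iC_im, ng_re, ng_im]; ring

lemma dist_iff' (F : Frame e0 e1 w) (z z' : Circle) :
    dist (cb e0 e1 w z) (ca e0 e1 z') = Real.sqrt (2 + ‖w‖ ^ 2) ↔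
      (z' = iC * z ∨ z' = iC * ng z) := by
  rw [dist_comm, dist_iff F]
  constructor
  · rintro (h | h)
    · right; rw [h, ← iC_ng, iC_iC, ng_ng]
    · left; rw [h, iC_iC, ng_ng]
  · rintro (h | h)
    · right; rw [h, iC_ng, iC_iC, ng_ng]
    · left; rw [h, iC_iC, ng_ng]

lemma ca_inj (F : Frame e0 e1 w) : Function.Injective (ca e0 e1) := by
  intro z z' h
  have h0 : (((z : ℂ).re + (z : ℂ).re * (z : ℂ).im / 4)
      - ((z' : ℂ).re + (z' : ℂ).re * (z' : ℂ).im / 4)) • e0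
      + ((z : ℂ).im - (z' : ℂ).im) • e1 + (0 : ℝ) • w = 0 := by
    rw [← sub_eq_zero] at h
    rw [← h]; unfold ca; module
  obtain ⟨ha, hb, -⟩ := comb_eq_zero F h0
  have hy : (z : ℂ).im = (z' : ℂ).im := by linarith
  obtain ⟨-, b2⟩ := bounds z'
  rw [abs_le] at b2
  rw [hy] at ha
  have hx : ((z : ℂ).re - (z' : ℂ).re) * (1 + (z' : ℂ).im / 4) = 0 := by linarith
  rcases mul_eq_zero.mp hx with h | h
  · exact circle_ext (by linarith) hy
  · exfalso; linarith [b2.1]

lemma cb_inj (F : Frame e0 e1 w) : Function.Injective (cb e0 e1 w) := by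
  intro z z' h
  have h0 : (((z : ℂ).re - (z : ℂ).re * (z : ℂ).im / 4)
      - ((z' : ℂ).re - (z' : ℂ).re * (z' : ℂ).im / 4)) • e0
      + ((z : ℂ).im - (z' : ℂ).im) • e1 + (0 : ℝ) • w = 0 := by
    rw [← sub_eq_zero] at h
    rw [← h]; unfold cb; module
  obtain ⟨ha, hb, -⟩ := comb_eq_zero F h0
  have hy : (z : ℂ).im = (z' : ℂ).im := by linarith
  obtain ⟨-, b2⟩ := bounds z'
  rw [abs_le] at b2
  rw [hy] at ha
  have hx : ((z : ℂ).re - (z' : ℂ).re) * (1 - (z' : ℂ).im / 4) = 0 := by linarith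
  rcases mul_eq_zero.mp hx with h | h
  · exact circle_ext (by linarith) hy
  · exfalso; linarith [b2.1]

/-- Where the two curves meet. -/
lemma meet (F : Frame e0 e1 w) {z z' : Circle} (h : ca e0 e1 z = cb e0 e1 w z') :
    w = 0 ∧ z' = z ∧ (z : ℂ).re * (z : ℂ).im = 0 := by
  rw [← sub_eq_zero, sub_eq_comb] at h
  obtain ⟨ha, hb, hc⟩ := comb_eq_zero F h
  have hw : w = 0 := by
    have : ‖w‖ ^ 2 = 0 := by linarith
    have := pow_eq_zero_iff (two_ne_zero) |>.mp this
    exact norm_eq_zero.mp this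
  have hy : (z' : ℂ).im = (z : ℂ).im := by linarith
  rw [hy] at ha
  have h1 := circle_sq z
  have h2 := circle_sq z'
  rw [hy] at h2
  have hsq : ((z' : ℂ).re - (z : ℂ).re) * ((z' : ℂ).re + (z : ℂ).re) = 0 := by nlinarith
  rcases mul_eq_zero.mp hsq with h | h
  · have hx : (z' : ℂ).re = (z : ℂ).re := by linarith
    rw [hx] at ha
    exact ⟨hw, circle_ext hx hy, by linarith⟩
  · have hx : (z' : ℂ).re = - (z : ℂ).re := by linarith
    rw [hx] at ha
    have hz : (z : ℂ).re = 0 := by linarith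
    refine ⟨hw, circle_ext ?_ hy, ?_⟩
    · rw [hx, hz]; norm_num
    · rw [hz]; ring

/-- Points with `xy = 0` are common when `w = 0`. -/
lemma common {z : Circle} (h : (z : ℂ).re * (z : ℂ).im = 0) : ca e0 e1 z = cb e0 e1 0 z := by
  unfold ca cb
  rw [h]; simp

lemma nbr_a (F : Frame e0 e1 w) (z : Circle) (q : E) :
    (dist (ca e0 e1 z) q = Real.sqrt (2 + ‖w‖ ^ 2) ∧
      ((ca e0 e1 z ∈ Set.range (ca e0 e1) ∧ q ∈ Set.range (cb e0 e1 w)) ∨
        (ca e0 e1 z ∈ Set.range (cb e0 e1 w) ∧ q ∈ Set.range (ca e0 e1)))) ↔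
      (q = cb e0 e1 w (iC * z) ∨ q = cb e0 e1 w (iC * ng z)) := by
  constructor
  · rintro ⟨hd, ⟨-, z', rfl⟩ | ⟨⟨z1, h1⟩, z', rfl⟩⟩
    · rcases (dist_iff F z z').mp hd with h | h
      · left; rw [h]
      · right; rw [h]
    · obtain ⟨hw, hz, hxy⟩ := meet F h1.symm
      subst hz
      rw [← h1] at hd
      subst hw
      rcases (dist_iff' F z1 z').mp hd with h | h
      · left
        rw [h]; apply common
        rw [iC_re, iC_im]; linarith
      · right
        rw [h]; apply common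
        rw [iC_re, iC_im, ng_im, ng_re]; linarith
  · rintro (h | h)
    · subst h
      exact ⟨(dist_iff F z _).mpr (Or.inl rfl), Or.inl ⟨⟨z, rfl⟩, ⟨_, rfl⟩⟩⟩
    · subst h
      exact ⟨(dist_iff F z _).mpr (Or.inr rfl), Or.inl ⟨⟨z, rfl⟩, ⟨_, rfl⟩⟩⟩

lemma nbr_b (F : Frame e0 e1 w) (z : Circle) (q : E) :
    (dist (cb e0 e1 w z) q = Real.sqrt (2 + ‖w‖ ^ 2) ∧
      ((cb e0 e1 w z ∈ Set.range (ca e0 e1) ∧ q ∈ Set.range (cb e0 e1 w)) ∨
        (cb e0 e1 w z ∈ Set.range (cb e0 e1 w) ∧ q ∈ Set.range (ca e0 e1)))) ↔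
      (q = ca e0 e1 (iC * z) ∨ q = ca e0 e1 (iC * ng z)) := by
  constructor
  · rintro ⟨hd, ⟨⟨z1, h1⟩, z', rfl⟩ | ⟨-, z', rfl⟩⟩
    · obtain ⟨hw, hz, hxy⟩ := meet F h1
      subst hz
      rw [← h1] at hd
      subst hw
      rcases (dist_iff F z z').mp hd with h | h
      · left
        rw [h]; symm; apply common
        rw [iC_re, iC_im]; linarith
      · right
        rw [h]; symm; apply common
        rw [iC_re, iC_im, ng_im, ng_re]; linarith
    · rcases (dist_iff' F z z').mp hd with h | h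
      · left; rw [h]
      · right; rw [h]
  · rintro (h | h)
    · subst h
      exact ⟨(dist_iff' F z _).mpr (Or.inl rfl), Or.inr ⟨⟨z, rfl⟩, ⟨_, rfl⟩⟩⟩
    · subst h
      exact ⟨(dist_iff' F z _).mpr (Or.inr rfl), Or.inr ⟨⟨z, rfl⟩, ⟨_, rfl⟩⟩⟩

omit [InnerProductSpace ℝ E] in
lemma adj_iff {A B : Set E} {d : ℝ} (hd : 0 < d) (p q : ↥(A ∪ B)) :
    (distGraph A B d).Adj p q ↔
      (dist p.1 q.1 = d ∧ ((p.1 ∈ A ∧ q.1 ∈ B) ∨ (p.1 ∈ B ∧ q.1 ∈ A))) := by
  constructor
  · intro h; exact h.2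
  · intro h
    refine ⟨?_, h⟩
    rintro rfl
    rw [dist_self] at h
    linarith [h.1]

lemma iC_ne (z : Circle) : iC * z ≠ iC * ng z := by
  intro h
  exact ng_ne z (mul_left_cancel h).symm

/-- vertices -/
noncomputable def va (e0 e1 w : E) (z : Circle) :
    ↥(Set.range (ca e0 e1) ∪ Set.range (cb e0 e1 w)) := ⟨ca e0 e1 z, Or.inl ⟨z, rfl⟩⟩

noncomputable def vb (e0 e1 w : E) (z : Circle) :
    ↥(Set.range (ca e0 e1) ∪ Set.range (cb e0 e1 w)) := ⟨cb e0 e1 w z, Or.inr ⟨z, rfl⟩⟩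

omit [InnerProductSpace ℝ E] in
lemma dpos (w : E) : 0 < Real.sqrt (2 + ‖w‖ ^ 2) := Real.sqrt_pos.mpr (by positivity)

/-- the graph -/
noncomputable abbrev G (e0 e1 w : E) :
    SimpleGraph ↥(Set.range (ca e0 e1) ∪ Set.range (cb e0 e1 w)) :=
  distGraph (Set.range (ca e0 e1)) (Set.range (cb e0 e1 w)) (Real.sqrt (2 + ‖w‖ ^ 2))

lemma adj_a (F : Frame e0 e1 w) (z : Circle)
    (q : ↥(Set.range (ca e0 e1) ∪ Set.range (cb e0 e1 w))) :
    (G e0 e1 w).Adj (va e0 e1 w z) q ↔ (q = vb e0 e1 w (iC * z) ∨ q = vb e0 e1 w (iC * ng z)) := by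
  rw [adj_iff (dpos w), Subtype.ext_iff, Subtype.ext_iff]
  exact nbr_a F z q.1

lemma adj_b (F : Frame e0 e1 w) (z : Circle)
    (q : ↥(Set.range (ca e0 e1) ∪ Set.range (cb e0 e1 w))) :
    (G e0 e1 w).Adj (vb e0 e1 w z) q ↔ (q = va e0 e1 w (iC * z) ∨ q = va e0 e1 w (iC * ng z)) := by
  rw [adj_iff (dpos w), Subtype.ext_iff, Subtype.ext_iff]
  exact nbr_b F z q.1

lemma vertex_cases (p : ↥(Set.range (ca e0 e1) ∪ Set.range (cb e0 e1 w))) :
    (∃ z, p = va e0 e1 w z) ∨ (∃ z, p = vb e0 e1 w z) := by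
  rcases p with ⟨p, ⟨z, rfl⟩ | ⟨z, rfl⟩⟩
  · left; exact ⟨z, rfl⟩
  · right; exact ⟨z, rfl⟩

lemma va_inj (F : Frame e0 e1 w) : Function.Injective (va e0 e1 w) := by
  intro z z' h
  exact ca_inj F (Subtype.ext_iff.mp h)

lemma vb_inj (F : Frame e0 e1 w) : Function.Injective (vb e0 e1 w) := by
  intro z z' h
  exact cb_inj F (Subtype.ext_iff.mp h)

theorem two_regular (F : Frame e0 e1 w)
    (p : ↥(Set.range (ca e0 e1) ∪ Set.range (cb e0 e1 w))) :
    ((G e0 e1 w).neighborSet p).ncard = 2 := by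
  rcases vertex_cases p with ⟨z, rfl⟩ | ⟨z, rfl⟩
  · have : (G e0 e1 w).neighborSet (va e0 e1 w z)
        = {vb e0 e1 w (iC * z), vb e0 e1 w (iC * ng z)} := by
      ext q
      rw [SimpleGraph.mem_neighborSet, adj_a F]
      rfl
    rw [this, Set.ncard_pair]
    intro h
    exact iC_ne z (vb_inj F h)
  · have : (G e0 e1 w).neighborSet (vb e0 e1 w z)
        = {va e0 e1 w (iC * z), va e0 e1 w (iC * ng z)} := by
      ext q
      rw [SimpleGraph.mem_neighborSet, adj_b F]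
      rfl
    rw [this, Set.ncard_pair]
    intro h
    exact iC_ne z (va_inj F h)

/-- The four vertices of the component of `va z`. -/
noncomputable def quad (e0 e1 w : E) (z : Circle) :
    Set ↥(Set.range (ca e0 e1) ∪ Set.range (cb e0 e1 w)) :=
  {va e0 e1 w z, va e0 e1 w (ng z), vb e0 e1 w (iC * z), vb e0 e1 w (iC * ng z)}

lemma quad_closed (F : Frame e0 e1 w) (z : Circle)
    {p q : ↥(Set.range (ca e0 e1) ∪ Set.range (cb e0 e1 w))}
    (hp : p ∈ quad e0 e1 w z) (h : (G e0 e1 w).Adj p q) : q ∈ quad e0 e1 w z := by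
  simp only [quad, Set.mem_insert_iff, Set.mem_singleton_iff] at hp ⊢
  rcases hp with rfl | rfl | rfl | rfl
  · rcases (adj_a F _ _).mp h with rfl | rfl <;> simp
  · rcases (adj_a F _ _).mp h with rfl | rfl
    · simp
    · rw [ng_ng]; simp
  · rcases (adj_b F _ _).mp h with rfl | rfl
    · rw [iC_iC]; simp
    · rw [← iC_ng, iC_iC, ng_ng]; simp
  · rcases (adj_b F _ _).mp h with rfl | rfl
    · rw [iC_iC, ng_ng]; simp
    · rw [← iC_ng, iC_iC, ng_ng]; simp

lemma reach_quad (F : Frame e0 e1 w) (z : Circle)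
    {p q : ↥(Set.range (ca e0 e1) ∪ Set.range (cb e0 e1 w))}
    (hp : p ∈ quad e0 e1 w z) (h : (G e0 e1 w).Reachable p q) : q ∈ quad e0 e1 w z := by
  obtain ⟨W⟩ := h
  induction W with
  | nil => exact hp
  | cons hadj _ ih => exact ih (quad_closed F z hp hadj)

lemma quad_reach (F : Frame e0 e1 w) (z : Circle)
    {q : ↥(Set.range (ca e0 e1) ∪ Set.range (cb e0 e1 w))}
    (hq : q ∈ quad e0 e1 w z) : (G e0 e1 w).Reachable (va e0 e1 w z) q := by
  have h1 : (G e0 e1 w).Adj (va e0 e1 w z) (vb e0 e1 w (iC * z)) :=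
    (adj_a F _ _).mpr (Or.inl rfl)
  have h2 : (G e0 e1 w).Adj (va e0 e1 w z) (vb e0 e1 w (iC * ng z)) :=
    (adj_a F _ _).mpr (Or.inr rfl)
  have h3 : (G e0 e1 w).Adj (vb e0 e1 w (iC * z)) (va e0 e1 w (ng z)) :=
    (adj_b F _ _).mpr (Or.inl (by rw [iC_iC]))
  simp only [quad, Set.mem_insert_iff, Set.mem_singleton_iff] at hq
  rcases hq with rfl | rfl | rfl | rfl
  · exact SimpleGraph.Reachable.refl _
  · exact h1.reachable.trans h3.reachable
  · exact h1.reachable
  · exact h2.reachable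

lemma quad_ncard (F : Frame e0 e1 w) (z : Circle) : (quad e0 e1 w z).ncard = 4 := by
  have h1 : (G e0 e1 w).Adj (va e0 e1 w z) (vb e0 e1 w (iC * z)) :=
    (adj_a F _ _).mpr (Or.inl rfl)
  have h2 : (G e0 e1 w).Adj (va e0 e1 w z) (vb e0 e1 w (iC * ng z)) :=
    (adj_a F _ _).mpr (Or.inr rfl)
  have h3 : (G e0 e1 w).Adj (va e0 e1 w (ng z)) (vb e0 e1 w (iC * ng z)) :=
    (adj_a F _ _).mpr (Or.inl rfl)
  have h4 : (G e0 e1 w).Adj (va e0 e1 w (ng z)) (vb e0 e1 w (iC * z)) :=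
    (adj_a F _ _).mpr (Or.inr (by rw [ng_ng]))
  have n1 := h1.ne
  have n2 := h2.ne
  have n3 := h3.ne
  have n4 := h4.ne
  have n5 : va e0 e1 w z ≠ va e0 e1 w (ng z) := fun h => ng_ne z (va_inj F h).symm
  have n6 : vb e0 e1 w (iC * z) ≠ vb e0 e1 w (iC * ng z) := fun h => iC_ne z (vb_inj F h)
  unfold quad
  rw [Set.ncard_insert_of_notMem, Set.ncard_insert_of_notMem, Set.ncard_pair n6]
  · simp only [Set.mem_insert_iff, Set.mem_singleton_iff, not_or]
    exact ⟨n4, n3⟩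
  · simp only [Set.mem_insert_iff, Set.mem_singleton_iff, not_or]
    exact ⟨n5, n1, n2⟩

lemma supp_eq (F : Frame e0 e1 w) (z : Circle) :
    ((G e0 e1 w).connectedComponentMk (va e0 e1 w z)).supp = quad e0 e1 w z := by
  ext q
  rw [SimpleGraph.ConnectedComponent.mem_supp_iff, SimpleGraph.ConnectedComponent.eq]
  constructor
  · intro h
    exact reach_quad F z (by simp [quad]) h.symm
  · intro h
    exact (quad_reach F z h).symm

theorem comp_ncard (F : Frame e0 e1 w) (c : (G e0 e1 w).ConnectedComponent) :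
    c.supp.ncard = 4 := by
  induction c using SimpleGraph.ConnectedComponent.ind with
  | h v =>
    rcases vertex_cases v with ⟨z, rfl⟩ | ⟨z, rfl⟩
    · rw [supp_eq F, quad_ncard F]
    · have h1 : (G e0 e1 w).Adj (vb e0 e1 w z) (va e0 e1 w (iC * z)) :=
        (adj_b F _ _).mpr (Or.inl rfl)
      rw [SimpleGraph.ConnectedComponent.sound h1.reachable, supp_eq F, quad_ncard F]

lemma ca_continuous : Continuous (ca e0 e1) := by
  unfold ca
  have h1 : Continuous fun z : Circle => (z : ℂ).re := Complex.continuous_re.comp continuous_subtype_val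
  have h2 : Continuous fun z : Circle => (z : ℂ).im := Complex.continuous_im.comp continuous_subtype_val
  fun_prop

lemma cb_continuous : Continuous (cb e0 e1 w) := by
  unfold cb
  have h1 : Continuous fun z : Circle => (z : ℂ).re := Complex.continuous_re.comp continuous_subtype_val
  have h2 : Continuous fun z : Circle => (z : ℂ).im := Complex.continuous_im.comp continuous_subtype_val
  fun_prop

lemma cb_eq (z : Circle) : cb e0 e1 w z = (-1 : ℝ) • ca e0 e1 (ng z) + w := by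
  unfold ca cb
  rw [ng_re, ng_im]
  module

lemma homothetic_curves :
    Homothetic (Set.range (ca e0 e1)) (Set.range (cb e0 e1 w)) := by
  refine ⟨-1, w, by norm_num, ?_⟩
  ext y
  simp only [Set.mem_range, Set.mem_setOf_eq]
  constructor
  · rintro ⟨z, rfl⟩
    exact ⟨ca e0 e1 (ng z), ⟨_, rfl⟩, cb_eq z⟩
  · rintro ⟨x, ⟨z, rfl⟩, rfl⟩
    exact ⟨ng z, by rw [cb_eq, ng_ng]⟩

/-- The point `(3 + 4 i) / 5` of the circle. -/
noncomputable def p345 : Circle := ⟨⟨3 / 5, 4 / 5⟩, by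
  simp only [Submonoid.unitSphere, Submonoid.mem_mk, Subsemigroup.mem_mk, Metric.mem_sphere,
    dist_zero_right]
  rw [← sq_eq_sq₀ (norm_nonneg _) zero_le_one, Complex.sq_norm, Complex.normSq_mk]
  norm_num⟩

lemma p345_re : ((p345 : Circle) : ℂ).re = 3 / 5 := rfl
lemma p345_im : ((p345 : Circle) : ℂ).im = 4 / 5 := rfl

lemma curves_ne (F : Frame e0 e1 w) : Set.range (ca e0 e1) ≠ Set.range (cb e0 e1 w) := by
  intro h
  have : ca e0 e1 p345 ∈ Set.range (cb e0 e1 w) := by rw [← h]; exact ⟨_, rfl⟩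
  obtain ⟨z', hz'⟩ := this
  have := (meet F hz'.symm).2.2
  rw [p345_re, p345_im] at this
  norm_num at this

lemma curves_disjoint (F : Frame e0 e1 w) (hw : w ≠ 0) :
    Disjoint (Set.range (ca e0 e1)) (Set.range (cb e0 e1 w)) := by
  rw [Set.disjoint_left]
  rintro x ⟨z, rfl⟩ ⟨z', h⟩
  exact hw (meet F h.symm).1

lemma not_sphere_a (F : Frame e0 e1 w) (c : E) (r : ℝ)
    (h : ∀ z, dist (ca e0 e1 z) c = r) : False := by
  have h10 : inner ℝ e1 e0 = 0 := by rw [real_inner_comm]; exact F.h01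
  have hc0 : inner ℝ c e0 = inner ℝ e0 c := real_inner_comm _ _
  have hc1 : inner ℝ c e1 = inner ℝ e1 c := real_inner_comm _ _
  have key : ∀ z : Circle,
      ((z : ℂ).re + (z : ℂ).re * (z : ℂ).im / 4) ^ 2 + (z : ℂ).im ^ 2
        - 2 * (((z : ℂ).re + (z : ℂ).re * (z : ℂ).im / 4) * inner ℝ e0 c + (z : ℂ).im * inner ℝ e1 c)
        + inner ℝ c c = r ^ 2 := by
    intro z
    rw [← h z, dist_eq_norm, ← real_inner_self_eq_norm_sq]
    unfold ca
    simp only [inner_add_left, inner_add_right, inner_sub_left, inner_sub_right,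
      real_inner_smul_left, real_inner_smul_right, F.h00, F.h11, F.h01, h10, hc0, hc1]
    ring
  have k1 := key 1
  have k2 := key (ng 1)
  have k3 := key (iC * 1)
  have k4 := key (iC * ng 1)
  have k5 := key p345
  simp only [iC_re, iC_im, ng_re, ng_im, p345_re, p345_im, Circle.coe_one, Complex.one_re,
    Complex.one_im] at k1 k2 k3 k4 k5
  have a0 : inner ℝ e0 c = 0 := by nlinarith
  have a1 : inner ℝ e1 c = 0 := by nlinarith
  rw [a0, a1] at k1 k5
  nlinarith

lemma not_circle_a (F : Frame e0 e1 w) : ¬ IsCircle (Set.range (ca e0 e1)) := by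
  rintro ⟨P, c, r, -, -, -, h⟩
  apply not_sphere_a F c r
  intro z
  have : ca e0 e1 z ∈ {x | x ∈ P ∧ dist x c = r} := by rw [← h]; exact ⟨z, rfl⟩
  exact this.2

lemma not_circle_b (F : Frame e0 e1 w) : ¬ IsCircle (Set.range (cb e0 e1 w)) := by
  rintro ⟨P, c, r, -, -, -, h⟩
  apply not_sphere_a F (w - c) r
  intro z
  have : cb e0 e1 w (ng z) ∈ {x | x ∈ P ∧ dist x c = r} := by rw [← h]; exact ⟨_, rfl⟩
  rw [← this.2, cb_eq, ng_ng, dist_eq_norm, dist_eq_norm, ← norm_neg]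
  congr 1
  module

/-- The construction in an arbitrary real inner product space containing a frame. -/
theorem main_frame (F : Frame e0 e1 w) :
    ∃ (A B : Set E) (d : ℝ), 0 < d ∧ IsSimpleClosedLocus A ∧ IsSimpleClosedLocus B ∧
      Homothetic A B ∧ A ≠ B ∧ (w ≠ 0 → Disjoint A B) ∧ ¬ IsCircle A ∧ ¬ IsCircle B ∧
      (∀ p : ↥(A ∪ B), ((distGraph A B d).neighborSet p).ncard = 2) ∧
      (∀ c : (distGraph A B d).ConnectedComponent, c.supp.Finite ∧ c.supp.ncard = 4) := by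
  refine ⟨Set.range (ca e0 e1), Set.range (cb e0 e1 w), Real.sqrt (2 + ‖w‖ ^ 2), dpos w,
    ⟨_, ca_continuous, ca_inj F, rfl⟩, ⟨_, cb_continuous, cb_inj F, rfl⟩, homothetic_curves,
    curves_ne F, curves_disjoint F, not_circle_a F, not_circle_b F, two_regular F, ?_⟩
  intro c
  have := comp_ncard F c
  refine ⟨?_, this⟩
  apply Set.finite_of_ncard_ne_zero
  rw [this]; norm_num

end construction

lemma single_orth {n : ℕ} {i j : Fin n} (h : i ≠ j) :
    inner ℝ (EuclideanSpace.single i (1 : ℝ)) (EuclideanSpace.single j (1 : ℝ)) = 0 := by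
  rw [EuclideanSpace.inner_single_left]
  simp [h]

/-- For every `n ≥ 2` there are homothetic simple closed curves `A ≠ B` in `E^n` (disjoint ones if
`n ≥ 3`), neither of them a circle, and `d > 0`, such that in the graph `G_d` every point of `A ∪ B`
has exactly two neighbours, and every component is finite, with exactly four vertices. -/
theorem result : ∀ n : ℕ, 2 ≤ n →
    ∃ (A B : Set (EuclideanSpace ℝ (Fin n))) (d : ℝ), 0 < d ∧
      IsSimpleClosedLocus A ∧ IsSimpleClosedLocus B ∧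
      Homothetic A B ∧ A ≠ B ∧ (3 ≤ n → Disjoint A B) ∧ ¬ IsCircle A ∧ ¬ IsCircle B ∧
      (∀ p : ↥(A ∪ B), ((distGraph A B d).neighborSet p).ncard = 2) ∧
      (∀ c : (distGraph A B d).ConnectedComponent, c.supp.Finite ∧ c.supp.ncard = 4) := by
  intro n hn
  have i0 : (0 : ℕ) < n := by omega
  have i1 : (1 : ℕ) < n := by omega
  set e0 : EuclideanSpace ℝ (Fin n) := EuclideanSpace.single ⟨0, i0⟩ 1 with he0
  set e1 : EuclideanSpace ℝ (Fin n) := EuclideanSpace.single ⟨1, i1⟩ 1 with he1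
  have h01 : inner ℝ e0 e1 = 0 := single_orth (by simp)
  have h00 : inner ℝ e0 e0 = 1 := by simp [he0]
  have h11 : inner ℝ e1 e1 = 1 := by simp [he1]
  by_cases h3 : 3 ≤ n
  · have i2 : (2 : ℕ) < n := by omega
    have F : Frame e0 e1 (EuclideanSpace.single (⟨2, i2⟩ : Fin n) (1 : ℝ)) :=
      ⟨h00, h11, h01, single_orth (by simp), single_orth (by simp)⟩
    obtain ⟨A, B, d, hd, hA, hB, hh, hne, hdis, hcA, hcB, h2, h4⟩ := main_frame F
    refine ⟨A, B, d, hd, hA, hB, hh, hne, fun _ => hdis ?_, hcA, hcB, h2, h4⟩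
    intro h
    have := congrArg (fun f : EuclideanSpace ℝ (Fin n) => f ⟨2, i2⟩) h
    simp at this
  · have F : Frame e0 e1 (0 : EuclideanSpace ℝ (Fin n)) :=
      ⟨h00, h11, h01, by simp, by simp⟩
    obtain ⟨A, B, d, hd, hA, hB, hh, hne, -, hcA, hcB, h2, h4⟩ := main_frame F
    exact ⟨A, B, d, hd, hA, hB, hh, hne, fun h => absurd h h3, hcA, hcB, h2, h4⟩

end Pool.Agent.Results.MP_945a85_co.NonCircularLoci
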